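import Mathlib
import Pool.Agent.H373R2.T7.Telesc
import Pool.Agent.TH935.LF1

set_option autoImplicit false

/-! The bilinear estimate for the von Mangoldt function minus its model along a family of shifts of nearly
minimal additive energy. -/

namespace Pool.Agent.K9h54.SQ

open Finset Pool.Agent.H373R2.T7
open Pool.Agent.H807R2.Dav

set_option maxHeartbeats 1000000 in
theorem bilE (p B C U : ℕ) :
    ∃ B0 : ℕ, ∀ E : ℕ, ∃ N0 : ℕ, ∀ N : ℕ, N0 ≤ N → ∀ (x : ℕ) (s : ℕ → ℤ),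
    (∀ m ∈ Icc 1 x, |s m| ≤ B * N) →
    (energy p x s : ℝ) * N ≤ Real.log N ^ C * (x : ℝ) ^ (2 * p) →
    ∀ z : ℕ, Real.log N ^ B0 ≤ z → (z : ℝ) ≤ Real.log N ^ E →
    ∀ A : ℕ, A ≤ B * N → ∀ G c : ℕ → ℂ, (∀ a, ‖G a‖ ≤ 1) → (∀ m, ‖c m‖ ≤ 1) →
    ‖∑ a ∈ Icc 1 A, ∑ m ∈ Icc 1 x, G a * c m * ((lamI (a + s m) - lamzI z (a + s m) : ℝ) : ℂ)‖ ≤
      N * x / Real.log N ^ U := by
  obtain ⟨U', m0, h0⟩ := Pool.Agent.TH935.LF.lam_f p B C U
  obtain ⟨B1, hsup⟩ := sup_diff U'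
  refine ⟨B1 + 1, fun E => ?_⟩
  obtain ⟨m1, h1⟩ := hsup E
  obtain ⟨m2, h2⟩ := Vz_inv_small E
  obtain ⟨m3, h3⟩ := ev_L' (max (2 ^ B1) (Real.log (2 * (B + 1)) + 1))
  refine ⟨max (max m0 m1) (max m2 (max m3 3)), fun N hN x s hs hE z hz1 hz2 A hA G c hG hc => ?_⟩
  have hm0 : m0 ≤ N := le_trans (le_trans (le_max_left _ _) (le_max_left _ _)) hN
  have hm1 : m1 ≤ N := le_trans (le_trans (le_max_right _ _) (le_max_left _ _)) hN
  have hm2 : m2 ≤ N := le_trans (le_trans (le_max_left _ _) (le_max_right _ _)) hN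
  have hm3 : m3 ≤ N := le_trans (le_trans (le_trans (le_max_left _ _) (le_max_right _ _)) (le_max_right _ _)) hN
  have hN3 : 3 ≤ N := le_trans (le_trans (le_trans (le_max_right _ _) (le_max_right _ _)) (le_max_right _ _)) hN
  have hL := h3 N hm3
  have hNr : (3 : ℝ) ≤ N := by exact_mod_cast hN3
  have hN0 : (0 : ℝ) < N := by linarith
  set L := Real.log N with hLd
  have hL3 : (2 : ℝ) ^ B1 ≤ L := (le_max_left _ _).trans hL
  have hL4 : Real.log (2 * (B + 1)) + 1 ≤ L := (le_max_right _ _).trans hL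
  have hB0 : (0 : ℝ) ≤ B := Nat.cast_nonneg _
  have hlogB : 0 ≤ Real.log (2 * ((B : ℝ) + 1)) := Real.log_nonneg (by linarith)
  have hLge1 : 1 ≤ L := by linarith
  have hL0 : 0 < L := by linarith
  have hz : 1 ≤ z := by
    have : (1 : ℝ) ≤ z := (one_le_pow₀ hLge1).trans hz1
    exact_mod_cast this
  set H : ℕ := 2 * ((B + 1) * N) with hH
  have hHN : N ≤ H := by
    have : N ≤ (B + 1) * N := Nat.le_mul_of_pos_left _ (by omega)
    omega
  have hH1 : 1 ≤ H := by omega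
  have hHr : (H : ℝ) = (2 * (B + 1)) * N := by rw [hH]; push_cast; ring
  have hlogH1 : L ≤ Real.log H := Real.log_le_log hN0 (by exact_mod_cast hHN)
  have hlogH2 : Real.log H ≤ 2 * L := by
    rw [hHr, Real.log_mul (by positivity) hN0.ne']
    linarith
  set fΛ : ℕ → ℂ := fun n => ((ArithmeticFunction.vonMangoldt n - lamz z n : ℝ) : ℂ) with hfΛ
  have hzH1 : Real.log H ^ B1 ≤ z := by
    calc Real.log H ^ B1 ≤ (2 * L) ^ B1 := pow_le_pow_left₀ (hL0.le.trans hlogH1) hlogH2 _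
      _ = 2 ^ B1 * L ^ B1 := mul_pow _ _ _
      _ ≤ L * L ^ B1 := mul_le_mul_of_nonneg_right hL3 (by positivity)
      _ = L ^ (B1 + 1) := by ring
      _ ≤ z := hz1
  have hzH2 : (z : ℝ) ≤ Real.log H ^ E := hz2.trans (pow_le_pow_left₀ hL0.le hlogH1 _)
  have hsup1 : ∀ α : ℝ, ‖∑ n ∈ Icc 1 H, fΛ n * ee ((n : ℝ) * α)‖ ≤ (H : ℝ) / L ^ U' := by
    intro α
    refine (h1 H (hm1.trans hHN) z hzH1 hzH2 α).trans ?_
    apply div_le_div_of_nonneg_left (by positivity) (by positivity)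
    exact pow_le_pow_left₀ hL0.le hlogH1 _
  have hVinv := h2 N hm2 z hz hz2
  have hlz : ∀ n, lamz z n ≤ L := by
    intro n
    unfold lamz
    split_ifs
    · exact hVinv
    · exact hL0.le
  have hf0 : ∀ n ∈ Icc 1 H, ‖fΛ n‖ ≤ 2 * L := by
    intro n hn
    rw [mem_Icc] at hn
    rw [hfΛ, Complex.norm_real, Real.norm_eq_abs]
    have h5 : ArithmeticFunction.vonMangoldt n ≤ 2 * L := by
      refine ArithmeticFunction.vonMangoldt_le_log.trans (le_trans ?_ hlogH2)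
      exact Real.log_le_log (by exact_mod_cast hn.1) (by exact_mod_cast hn.2)
    have h6 : (0 : ℝ) ≤ ArithmeticFunction.vonMangoldt n := ArithmeticFunction.vonMangoldt_nonneg
    have h7 := lamz_nonneg z n
    have h8 := hlz n
    rw [abs_le]
    constructor <;> linarith
  have key := h0 N hm0 x s hs hE fΛ hsup1 hf0 A hA G hG
  have heq : ∀ a ∈ Icc 1 A, ∀ m ∈ Icc 1 x, ((lamI (a + s m) - lamzI z (a + s m) : ℝ) : ℂ) = fz fΛ H (a + s m) := by
    intro a ha m hm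
    unfold fz lamI lamzI
    have h4 := abs_le.1 (hs m hm)
    rw [mem_Icc] at ha
    have h5 : (a : ℤ) ≤ B * N := by exact_mod_cast ha.2.trans hA
    have h7 : (H : ℤ) = 2 * ((B + 1) * N) := by rw [hH]; push_cast; ring
    have h8 : (0 : ℤ) ≤ N := Int.natCast_nonneg _
    by_cases h6 : 1 ≤ (a : ℤ) + s m
    · rw [if_pos h6, if_pos h6, if_pos ⟨h6, by rw [h7]; linarith [h4.2]⟩]
    · rw [if_neg h6, if_neg h6, if_neg (fun h => h6 h.1)]
      simp
  rw [sum_comm]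
  refine (norm_sum_le _ _).trans (le_trans (sum_le_sum fun m hm => ?_) key)
  have e : ∑ a ∈ Icc 1 A, G a * c m * ((lamI (a + s m) - lamzI z (a + s m) : ℝ) : ℂ) =
      c m * ∑ a ∈ Icc 1 A, G a * fz fΛ H (a + s m) := by
    rw [mul_sum]
    apply sum_congr rfl
    intro a ha
    rw [heq a ha m hm]
    ring
  rw [e, norm_mul]
  calc ‖c m‖ * ‖∑ a ∈ Icc 1 A, G a * fz fΛ H (a + s m)‖ ≤ 1 * ‖∑ a ∈ Icc 1 A, G a * fz fΛ H (a + s m)‖ :=
        mul_le_mul_of_nonneg_right (hc m) (norm_nonneg _)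
    _ = _ := one_mul _

end Pool.Agent.K9h54.SQ
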