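import Mathlib
import Pool.Agent.K9h54.SQ.B1

set_option autoImplicit false

/-! Several numbers at once. -/

namespace Pool.Agent.K9h54.SQ

open Finset Pool.Agent.H373R2.T7

lemma lamI_le (B N : ℕ) (hN : 1 ≤ N) (hL : Real.log (2 * (B + 1)) ≤ Real.log N) (u : ℤ) (hu : u ≤ (B + 1) * N) :
    lamI u ≤ 2 * Real.log N := by
  have hB0 : (0 : ℝ) ≤ B := Nat.cast_nonneg _
  have hN0 : (0 : ℝ) < N := by exact_mod_cast hN
  unfold lamI
  split_ifs with h
  · refine ArithmeticFunction.vonMangoldt_le_log.trans ?_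
    have h1 : ((u.toNat : ℕ) : ℝ) ≤ (2 * (B + 1)) * N := by
      have h2 : ((u.toNat : ℕ) : ℤ) = u := Int.toNat_of_nonneg (by omega)
      have h3 : ((u.toNat : ℕ) : ℝ) = (u : ℝ) := by exact_mod_cast h2
      rw [h3]
      have h4 : (u : ℝ) ≤ (B + 1) * N := by exact_mod_cast hu
      have h5 : 0 ≤ ((B : ℝ) + 1) * N := by positivity
      linarith
    have h2 : (0 : ℝ) < (u.toNat : ℕ) := by
      have : 1 ≤ u.toNat := by omega
      exact_mod_cast this
    refine (Real.log_le_log h2 h1).trans ?_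
    rw [Real.log_mul (by positivity) hN0.ne']
    linarith
  · have : 0 ≤ Real.log (N : ℝ) := Real.log_nonneg (by exact_mod_cast hN)
    positivity

theorem tup (k p B C U : ℕ) :
    ∃ B0 : ℕ, ∀ E : ℕ, ∃ N0 : ℕ, ∀ N : ℕ, N0 ≤ N → ∀ (x : ℕ) (s : ℕ → ℤ),
    (∀ m ∈ Icc 1 x, |s m| ≤ ((B + 1 : ℕ) : ℤ) * N) →
    (energy p x s : ℝ) * N ≤ Real.log N ^ C * (x : ℝ) ^ (2 * p) →
    ∀ z : ℕ, Real.log N ^ B0 ≤ z → (z : ℝ) ≤ Real.log N ^ E →
    ∀ w : ℕ → ℝ, (∀ m ∈ Icc 1 x, |w m| ≤ 1) →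
    ∑ a ∈ Fintype.piFinset (fun _ : Fin k => Icc 1 N),
      |∑ m ∈ Icc 1 x, w m * (∏ i, lamI (a i + s m) - ∏ i, lamzI z (a i + s m))| ≤
      (N : ℝ) ^ k * x / Real.log N ^ U := by
  obtain ⟨B0, h0⟩ := bilE p (B + 1) C (U + k + 1)
  refine ⟨B0, fun E => ?_⟩
  obtain ⟨m0, h1⟩ := h0 E
  obtain ⟨m2, h2⟩ := Vz_inv_small E
  obtain ⟨m3, h3⟩ := ev_L' (max (k * 2 ^ k) (Real.log (2 * ((B + 1 : ℕ) + 1)) + 1))
  refine ⟨max (max m0 m2) (max m3 3), fun N hN x s hs hE z hz1 hz2 w hw => ?_⟩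
  have hm0 : m0 ≤ N := le_trans (le_trans (le_max_left _ _) (le_max_left _ _)) hN
  have hm2 : m2 ≤ N := le_trans (le_trans (le_max_right _ _) (le_max_left _ _)) hN
  have hm3 : m3 ≤ N := le_trans (le_trans (le_max_left _ _) (le_max_right _ _)) hN
  have hN3 : 3 ≤ N := le_trans (le_trans (le_max_right _ _) (le_max_right _ _)) hN
  have hL := h3 N hm3
  have hNr : (3 : ℝ) ≤ N := by exact_mod_cast hN3
  have hN0 : (0 : ℝ) < N := by linarith
  set L := Real.log N with hLd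
  have hL3 : (k : ℝ) * 2 ^ k ≤ L := (le_max_left _ _).trans hL
  have hL4 : Real.log (2 * ((B + 1 : ℕ) + 1)) + 1 ≤ L := (le_max_right _ _).trans hL
  have hlogB : 0 ≤ Real.log (2 * (((B + 1 : ℕ) : ℝ) + 1)) := by
    apply Real.log_nonneg
    have : (0 : ℝ) ≤ ((B + 1 : ℕ) : ℝ) := Nat.cast_nonneg _
    linarith
  have hLge1 : 1 ≤ L := by linarith
  have hL0 : 0 < L := by linarith
  have hz : 1 ≤ z := by
    have : (1 : ℝ) ≤ z := (one_le_pow₀ hLge1).trans hz1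
    exact_mod_cast this
  have hVinv := h2 N hm2 z hz hz2
  have hlz : ∀ u : ℤ, |lamzI z u| ≤ 2 * L := by
    intro u
    rw [abs_of_nonneg (lamzI_nonneg z u)]
    unfold lamzI lamz
    split_ifs
    · linarith
    · positivity
    · positivity
  have hbil := h1 N hm0 x s hs hE z hz1 hz2 N (Nat.le_mul_of_pos_left _ (by omega))
  rcases Nat.eq_zero_or_pos x with hx | hx
  · rw [hx]; simp
  have hx0 : (0 : ℝ) < x := by exact_mod_cast hx
  set δ : ℝ := x / L ^ (U + k + 1) with hδ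
  have hδ0 : 0 ≤ δ := by positivity
  have hone : ∀ _i : Fin k, ∀ K : ℝ, 0 < K → ∀ G : ℕ → ℝ, (∀ n ∈ Icc 1 x, |G n| ≤ K) →
      ∑ v ∈ Icc 1 N, |∑ n ∈ Icc 1 x, G n * (lamI (v + s n) - lamzI z (v + s n))| ≤ K * (δ * N) := by
    intro _ K hK G hG
    have h4 := l1_of_bil' N x (fun a m => lamI (a + s m) - lamzI z (a + s m)) (N * x / L ^ (U + k + 1)) K hK
      (fun G c hG hc => hbil G c hG hc) G hG
    refine h4.trans (le_of_eq ?_)
    rw [hδ]
    ring
  have key := tele x (fun _ : Fin k => N) (fun _ => by omega) (fun _ n v => lamI (v + s n)) (fun _ n v => lamzI z (v + s n))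
    (2 * L) δ (by linarith) hδ0
    (fun _ n hn v hv => by
      rw [abs_of_nonneg (lamI_nonneg _)]
      apply lamI_le (B + 1) N (by omega) (by linarith)
      rw [mem_Icc] at hv
      have h5 := (abs_le.1 (hs n hn)).2
      have h6 : (v : ℤ) ≤ N := by exact_mod_cast hv.2
      linarith)
    (fun _ n _ v _ => hlz _) hone univ 1 one_pos (fun n _ => if n ∈ Icc 1 x then w n else 0)
    (fun n hn m _ => by rw [if_pos hn]; exact hw n hn) (fun _ _ _ _ _ => rfl)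
  have e1 : ∑ a ∈ Fintype.piFinset (fun _ : Fin k => Icc 1 N),
      |∑ m ∈ Icc 1 x, w m * (∏ i, lamI (a i + s m) - ∏ i, lamzI z (a i + s m))| =
      ∑ m ∈ Fintype.piFinset (fun _ : Fin k => Icc 1 N), |∑ n ∈ Icc 1 x, (if n ∈ Icc 1 x then w n else 0) *
        (∏ i, lamI (m i + s n) - ∏ i, lamzI z (m i + s n))| := by
    apply sum_congr rfl
    intro a _
    congr 1
    apply sum_congr rfl
    intro n hn
    rw [if_pos hn]
  rw [e1]
  refine key.trans ?_
  rw [card_univ, Fintype.card_fin, prod_const, card_univ, Fintype.card_fin, one_mul, hδ]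
  have e2 : (k : ℝ) * ((2 * L) ^ k * (x / L ^ (U + k + 1))) * (N : ℝ) ^ k = (k * 2 ^ k / L) * ((N : ℝ) ^ k * x / L ^ U) := by
    rw [mul_pow, show U + k + 1 = k + U + 1 by ring, pow_add, pow_add, pow_one]
    field_simp
  rw [e2]
  calc (k * 2 ^ k / L) * ((N : ℝ) ^ k * x / L ^ U) ≤ 1 * ((N : ℝ) ^ k * x / L ^ U) := by
        apply mul_le_mul_of_nonneg_right _ (by positivity)
        rw [div_le_one hL0]
        exact hL3
    _ = _ := one_mul _

end Pool.Agent.K9h54.SQ
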