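import Mathlib
import Pool.Agent.H373R2.T7.BilLam

set_option autoImplicit false

/-! From sums of von Mangoldt's function to primes, for one tuple. -/

namespace Pool.Agent.K9h54.SQ

open Finset Pool.Agent.H373R2.T7

/-- partial summation with nonnegative nondecreasing weights -/
lemma abel_mono (w D : ℕ → ℝ) (T W : ℝ) (J : ℕ) (hT : ∀ j ≤ J, |∑ i ∈ Icc 1 j, D i| ≤ T)
    (hw0 : ∀ j ∈ Icc 1 J, 0 ≤ w j) (hw : ∀ i j, 1 ≤ i → i ≤ j → j ≤ J → w i ≤ w j) (hW : ∀ j ∈ Icc 1 J, w j ≤ W) (hW0 : 0 ≤ W) :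
    |∑ j ∈ Icc 1 J, w j * D j| ≤ 2 * W * T := by
  have hT0 : 0 ≤ T := (abs_nonneg _).trans (hT 0 (Nat.zero_le _))
  have key : ∀ j, 1 ≤ j → j ≤ J → |∑ i ∈ Icc 1 j, w i * D i - w j * ∑ i ∈ Icc 1 j, D i| ≤ w j * T := by
    intro j hj
    induction j, hj using Nat.le_induction with
    | base =>
      intro hJ
      simp only [Icc_self, sum_singleton, sub_self, abs_zero]
      exact mul_nonneg (hw0 1 (mem_Icc.2 ⟨le_rfl, hJ⟩)) hT0
    | succ n hn ih =>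
      intro hJ
      have h1 := ih (by omega)
      rw [sum_Icc_succ_top (by omega), sum_Icc_succ_top (by omega)]
      have h2 : ∑ i ∈ Icc 1 n, w i * D i + w (n + 1) * D (n + 1) - w (n + 1) * (∑ i ∈ Icc 1 n, D i + D (n + 1)) =
          (∑ i ∈ Icc 1 n, w i * D i - w n * ∑ i ∈ Icc 1 n, D i) - (w (n + 1) - w n) * ∑ i ∈ Icc 1 n, D i := by ring
      rw [h2]
      refine (abs_sub _ _).trans ?_
      have h3 : 0 ≤ w (n + 1) - w n := by
        have := hw n (n + 1) hn (by omega) hJ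
        linarith
      have h4 : |(w (n + 1) - w n) * ∑ i ∈ Icc 1 n, D i| ≤ (w (n + 1) - w n) * T := by
        rw [abs_mul, abs_of_nonneg h3]
        exact mul_le_mul_of_nonneg_left (hT n (by omega)) h3
      linarith
  rcases Nat.eq_zero_or_pos J with h | h
  · rw [h]
    simp only [lt_irrefl, zero_lt_one, Icc_eq_empty_of_lt, sum_empty, abs_zero]
    positivity
  · have h1 := key J h le_rfl
    have h2 : |w J * ∑ i ∈ Icc 1 J, D i| ≤ w J * T := by
      rw [abs_mul, abs_of_nonneg (hw0 J (mem_Icc.2 ⟨h, le_rfl⟩))]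
      exact mul_le_mul_of_nonneg_left (hT J le_rfl) (hw0 J (mem_Icc.2 ⟨h, le_rfl⟩))
    have h3 : w J * T ≤ W * T := mul_le_mul_of_nonneg_right (hW J (mem_Icc.2 ⟨h, le_rfl⟩)) hT0
    have h4 : ∑ j ∈ Icc 1 J, w j * D j = (∑ i ∈ Icc 1 J, w i * D i - w J * ∑ i ∈ Icc 1 J, D i) + w J * ∑ i ∈ Icc 1 J, D i := by ring
    rw [h4]
    refine (abs_add_le _ _).trans ?_
    linarith

/-- the weight -/
noncomputable def wt {k : ℕ} (u : Fin k → ℤ) : ℝ := ∏ i, 1 / Real.log ((u i : ℤ) : ℝ)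

lemma wt_nonneg {k : ℕ} (u : Fin k → ℤ) (hu : ∀ i, 2 ≤ u i) : 0 ≤ wt u := by
  unfold wt
  apply prod_nonneg
  intro i _
  have : (2 : ℝ) ≤ ((u i : ℤ) : ℝ) := by exact_mod_cast hu i
  have := Real.log_nonneg (show (1 : ℝ) ≤ ((u i : ℤ) : ℝ) by linarith)
  positivity

lemma wt_mono {k : ℕ} (u v : Fin k → ℤ) (hv : ∀ i, 2 ≤ v i) (huv : ∀ i, v i ≤ u i) : wt u ≤ wt v := by
  unfold wt
  apply prod_le_prod
  · intro i _
    have h1 : (2 : ℝ) ≤ ((v i : ℤ) : ℝ) := by exact_mod_cast hv i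
    have h2 : ((v i : ℤ) : ℝ) ≤ ((u i : ℤ) : ℝ) := by exact_mod_cast huv i
    have := Real.log_nonneg (show (1 : ℝ) ≤ ((u i : ℤ) : ℝ) by linarith)
    positivity
  · intro i _
    have h1 : (2 : ℝ) ≤ ((v i : ℤ) : ℝ) := by exact_mod_cast hv i
    have h2 : ((v i : ℤ) : ℝ) ≤ ((u i : ℤ) : ℝ) := by exact_mod_cast huv i
    have h3 := Real.log_pos (show (1 : ℝ) < ((v i : ℤ) : ℝ) by linarith)
    exact one_div_le_one_div_of_le h3 (Real.log_le_log (by linarith) h2)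

lemma wt_le {k : ℕ} (u : Fin k → ℤ) (hu : ∀ i, 2 ≤ u i) : wt u ≤ 2 ^ k := by
  have h := wt_mono u (fun _ => 2) (fun _ => le_rfl) hu
  refine h.trans ?_
  unfold wt
  rw [prod_const, card_univ, Fintype.card_fin]
  apply pow_le_pow_left₀
  · have := Real.log_nonneg (show (1 : ℝ) ≤ ((2 : ℤ) : ℝ) by norm_num)
    positivity
  · have h1 : (1 / 2 : ℝ) ≤ Real.log ((2 : ℤ) : ℝ) := by
      have := Real.log_two_gt_d9
      push_cast
      linarith
    calc 1 / Real.log ((2 : ℤ) : ℝ) ≤ 1 / (1 / 2) := one_div_le_one_div_of_le (by norm_num) h1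
      _ = 2 := by norm_num

/-- proper prime powers -/
def PP (u : ℤ) : Prop := IsPrimePow u.toNat ∧ ¬ u.toNat.Prime

lemma lam_ratio (u : ℤ) (hu : 2 ≤ u) : 0 ≤ lamI u / Real.log (u : ℝ) ∧ lamI u / Real.log (u : ℝ) ≤ 1 ∧
    (u.toNat.Prime → lamI u / Real.log (u : ℝ) = 1) ∧ (¬ IsPrimePow u.toNat → lamI u / Real.log (u : ℝ) = 0) := by
  have h1 : (1 : ℝ) < (u : ℝ) := by
    have : (1 : ℤ) < u := by omega
    exact_mod_cast this
  have hlog := Real.log_pos h1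
  have h2 : ((u.toNat : ℕ) : ℝ) = (u : ℝ) := by
    have : ((u.toNat : ℕ) : ℤ) = u := Int.toNat_of_nonneg (by omega)
    exact_mod_cast this
  have h3 : lamI u = ArithmeticFunction.vonMangoldt u.toNat := by
    unfold lamI
    rw [if_pos (by omega)]
  refine ⟨div_nonneg (lamI_nonneg u) hlog.le, ?_, ?_, ?_⟩
  · rw [div_le_one hlog, h3, ← h2]
    exact ArithmeticFunction.vonMangoldt_le_log
  · intro hp
    rw [h3, ArithmeticFunction.vonMangoldt_apply_prime hp, h2]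
    exact div_self hlog.ne'
  · intro hp
    rw [h3, ArithmeticFunction.vonMangoldt_eq_zero_iff.2 hp, zero_div]

open Classical in
/-- one term -/
lemma term_diff {k : ℕ} (u : Fin k → ℤ) (hu : ∀ i, 2 ≤ u i) :
    |(if ∀ i, (u i).toNat.Prime then (1 : ℝ) else 0) - wt u * ∏ i, lamI (u i)| ≤
      if ∃ i, PP (u i) then 1 else 0 := by
  have e : wt u * ∏ i, lamI (u i) = ∏ i, lamI (u i) / Real.log ((u i : ℤ) : ℝ) := by
    unfold wt
    rw [← prod_mul_distrib]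
    apply prod_congr rfl
    intro i _
    ring
  rw [e]
  have h0 : 0 ≤ ∏ i, lamI (u i) / Real.log ((u i : ℤ) : ℝ) := prod_nonneg fun i _ => (lam_ratio (u i) (hu i)).1
  have h1 : ∏ i, lamI (u i) / Real.log ((u i : ℤ) : ℝ) ≤ 1 :=
    prod_le_one (fun i _ => (lam_ratio (u i) (hu i)).1) (fun i _ => (lam_ratio (u i) (hu i)).2.1)
  by_cases hp : ∀ i, (u i).toNat.Prime
  · rw [if_pos hp]
    have : ∏ i, lamI (u i) / Real.log ((u i : ℤ) : ℝ) = 1 := prod_eq_one fun i _ => (lam_ratio (u i) (hu i)).2.2.1 (hp i)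
    rw [this, sub_self, abs_zero]
    split_ifs <;> norm_num
  · rw [if_neg hp, zero_sub, abs_neg, abs_of_nonneg h0]
    by_cases hq : ∀ i, IsPrimePow (u i).toNat
    · rw [if_pos]
      · exact h1
      · push_neg at hp
        obtain ⟨i, hi⟩ := hp
        exact ⟨i, hq i, hi⟩
    · push_neg at hq
      obtain ⟨i, hi⟩ := hq
      rw [prod_eq_zero (mem_univ i) ((lam_ratio (u i) (hu i)).2.2.2 hi)]
      split_ifs <;> norm_num

open Classical in
/-- one tuple, one prefix -/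
theorem one_tuple {k : ℕ} (z J x : ℕ) (hJx : J ≤ x) (u : ℕ → Fin k → ℤ) (hu : ∀ j ∈ Icc 1 J, ∀ i, 2 ≤ u j i)
    (hmono : ∀ j j', 1 ≤ j → j ≤ j' → j' ≤ x → ∀ i, u j' i ≤ u j i) (T : ℝ)
    (hT : ∀ j ≤ x, |∑ m ∈ Icc 1 j, (∏ i, lamI (u m i) - ∏ i, lamzI z (u m i))| ≤ T) :
    |(((Icc 1 J).filter (fun j => ∀ i, (u j i).toNat.Prime)).card : ℝ) - ∑ j ∈ Icc 1 J, wt (u j) * ∏ i, lamzI z (u j i)| ≤
      2 * 2 ^ k * T + ((Icc 1 x).filter (fun j => ∃ i, PP (u j i))).card := by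
  have h1 := abel_mono (fun j => wt (u j)) (fun m => ∏ i, lamI (u m i) - ∏ i, lamzI z (u m i)) T (2 ^ k) J
    (fun j hj => hT j (hj.trans hJx)) (fun j hj => wt_nonneg _ (hu j hj))
    (fun i j hi hij hj => wt_mono _ _ (hu j (mem_Icc.2 ⟨by omega, hj⟩)) (hmono i j hi hij (hj.trans hJx)))
    (fun j hj => wt_le _ (hu j hj)) (by positivity)
  have h2 : |∑ j ∈ Icc 1 J, ((if ∀ i, (u j i).toNat.Prime then (1 : ℝ) else 0) - wt (u j) * ∏ i, lamI (u j i))| ≤
      ((Icc 1 x).filter (fun j => ∃ i, PP (u j i))).card := by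
    refine (abs_sum_le_sum_abs _ _).trans ?_
    refine (sum_le_sum fun j hj => term_diff (u j) (hu j hj)).trans ?_
    rw [← sum_filter, sum_const, nsmul_eq_mul, mul_one]
    have : ((Icc 1 J).filter (fun j => ∃ i, PP (u j i))).card ≤ ((Icc 1 x).filter (fun j => ∃ i, PP (u j i))).card :=
      card_le_card (filter_subset_filter _ (Icc_subset_Icc_right hJx))
    exact_mod_cast this
  have e1 : (((Icc 1 J).filter (fun j => ∀ i, (u j i).toNat.Prime)).card : ℝ) =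
      ∑ j ∈ Icc 1 J, (if ∀ i, (u j i).toNat.Prime then (1 : ℝ) else 0) := by
    rw [← sum_filter, sum_const, nsmul_eq_mul, mul_one]
  have e2 : (((Icc 1 J).filter (fun j => ∀ i, (u j i).toNat.Prime)).card : ℝ) - ∑ j ∈ Icc 1 J, wt (u j) * ∏ i, lamzI z (u j i) =
      ∑ j ∈ Icc 1 J, ((if ∀ i, (u j i).toNat.Prime then (1 : ℝ) else 0) - wt (u j) * ∏ i, lamI (u j i)) +
      ∑ j ∈ Icc 1 J, wt (u j) * (∏ i, lamI (u j i) - ∏ i, lamzI z (u j i)) := by
    rw [e1, ← sum_add_distrib, ← sum_sub_distrib]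
    apply sum_congr rfl
    intro j _
    ring
  rw [e2]
  refine (abs_add_le _ _).trans ?_
  linarith

end Pool.Agent.K9h54.SQ
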