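import Mathlib
import Pool.Agent.K9h54.SQ.B2
import Pool.Agent.K9h54.SQ.B3

set_option autoImplicit false

/-! Almost all tuples. -/

namespace Pool.Agent.K9h54.SQ

open Finset Pool.Agent.H373R2.T7

open Classical in
/-- the number of proper prime powers -/
lemma pp_card (N : ℕ) : ((Icc 1 N).filter (fun u : ℕ => IsPrimePow u ∧ ¬ u.Prime)).card ≤ Nat.sqrt N * (Nat.log 2 N + 1) := by
  have hsub : (Icc 1 N).filter (fun u : ℕ => IsPrimePow u ∧ ¬ u.Prime) ⊆
      (Icc 1 (Nat.sqrt N) ×ˢ range (Nat.log 2 N + 1)).image (fun q => q.1 ^ q.2) := by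
    intro u hu
    rw [mem_filter, mem_Icc, isPrimePow_nat_iff] at hu
    obtain ⟨⟨h1, h2⟩, ⟨q, r, hq, hr, hqr⟩, hnp⟩ := hu
    rw [mem_image]
    refine ⟨(q, r), ?_, hqr⟩
    have hr2 : 2 ≤ r := by
      by_contra hcon
      have : r = 1 := by omega
      rw [this, pow_one] at hqr
      exact hnp (hqr ▸ hq)
    rw [mem_product, mem_Icc, mem_range]
    refine ⟨⟨hq.one_lt.le, ?_⟩, ?_⟩
    · rw [Nat.le_sqrt, ← pow_two]
      calc q ^ 2 ≤ q ^ r := Nat.pow_le_pow_right hq.pos hr2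
        _ ≤ N := by rw [hqr]; exact h2
    · apply Nat.lt_succ_of_le
      apply Nat.le_log_of_pow_le (by norm_num)
      calc 2 ^ r ≤ q ^ r := Nat.pow_le_pow_left hq.two_le r
        _ ≤ N := by rw [hqr]; exact h2
  refine (card_le_card hsub).trans (card_image_le.trans ?_)
  rw [card_product, Nat.card_Icc, card_range]
  simp

open Classical in
lemma pp_shift (N : ℕ) (s : ℤ) (hs : s ≤ 0) :
    ((Icc 1 N).filter (fun v : ℕ => PP (v + s))).card ≤ Nat.sqrt N * (Nat.log 2 N + 1) := by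
  refine le_trans ?_ (pp_card N)
  apply card_le_card_of_injOn (fun v : ℕ => ((v : ℤ) + s).toNat)
  · intro v hv
    rw [mem_coe, mem_filter, mem_Icc] at hv
    rw [mem_coe, mem_filter, mem_Icc]
    have h1 : 0 < ((v : ℤ) + s).toNat := by
      by_contra hcon
      have h0 : ((v : ℤ) + s).toNat = 0 := by omega
      have h2 := hv.2.1
      rw [h0] at h2
      exact not_isPrimePow_zero h2
    refine ⟨⟨h1, ?_⟩, hv.2⟩
    show ((v : ℤ) + s).toNat ≤ N
    omega
  · intro v hv v' hv' h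
    rw [mem_coe, mem_filter, mem_Icc] at hv hv'
    have h1 : ∀ v : ℕ, PP (v + s) → 0 < ((v : ℤ) + s).toNat := by
      intro v hv
      by_contra hcon
      have h0 : ((v : ℤ) + s).toNat = 0 := by omega
      have h2 := hv.1
      rw [h0] at h2
      exact not_isPrimePow_zero h2
    have h2 := h1 v hv.2
    have h3 := h1 v' hv'.2
    simp only at h
    omega

open Classical in
lemma pp_avg (k N x : ℕ) (hN : 1 ≤ N) (s : ℕ → ℤ) (hs : ∀ m ∈ Icc 1 x, s m ≤ 0) :
    ∑ a ∈ Fintype.piFinset (fun _ : Fin k => Icc 1 N), (((Icc 1 x).filter (fun j => ∃ i, PP (a i + s j))).card : ℝ) ≤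
      x * (k * ((N : ℝ) ^ k / N * ((Nat.sqrt N : ℝ) * (Nat.log 2 N + 1)))) := by
  have hN0 : (0 : ℝ) < N := by exact_mod_cast hN
  have h1 : ∀ a : Fin k → ℕ, (((Icc 1 x).filter (fun j => ∃ i, PP (a i + s j))).card : ℝ) ≤
      ∑ j ∈ Icc 1 x, ∑ i, (if PP (a i + s j) then (1 : ℝ) else 0) := by
    intro a
    have e : (((Icc 1 x).filter (fun j => ∃ i, PP (a i + s j))).card : ℝ) = ∑ j ∈ Icc 1 x, (if ∃ i, PP (a i + s j) then (1 : ℝ) else 0) := by
      rw [← sum_filter, sum_const, nsmul_eq_mul, mul_one]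
    rw [e]
    apply sum_le_sum
    intro j _
    by_cases h : ∃ i, PP (a i + s j)
    · rw [if_pos h]
      obtain ⟨i, hi⟩ := h
      have h2 := single_le_sum (f := fun i => (if PP (a i + s j) then (1 : ℝ) else 0)) (fun i _ => by split_ifs <;> norm_num) (mem_univ i)
      simp only [if_pos hi] at h2
      exact h2
    · rw [if_neg h]
      exact sum_nonneg fun i _ => by split_ifs <;> norm_num
  refine (sum_le_sum fun a _ => h1 a).trans ?_
  rw [sum_comm]
  have h2 : ∀ j ∈ Icc 1 x, ∑ a ∈ Fintype.piFinset (fun _ : Fin k => Icc 1 N), ∑ i, (if PP (a i + s j) then (1 : ℝ) else 0) ≤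
      k * ((N : ℝ) ^ k / N * ((Nat.sqrt N : ℝ) * (Nat.log 2 N + 1))) := by
    intro j hj
    rw [sum_comm]
    have h3 : ∀ i : Fin k, ∑ a ∈ Fintype.piFinset (fun _ : Fin k => Icc 1 N), (if PP (a i + s j) then (1 : ℝ) else 0) ≤
        (N : ℝ) ^ k / N * ((Nat.sqrt N : ℝ) * (Nat.log 2 N + 1)) := by
      intro i
      have h4 := avg_coord (fun _ : Fin k => Icc 1 N) i (fun a => if PP (a i + s j) then (1 : ℝ) else 0)
      simp only [Function.update_self] at h4
      have h5 : ∑ v ∈ Icc 1 N, (if PP ((v : ℕ) + s j) then (1 : ℝ) else 0) ≤ (Nat.sqrt N : ℝ) * (Nat.log 2 N + 1) := by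
        rw [← sum_filter, sum_const, nsmul_eq_mul, mul_one]
        exact_mod_cast pp_shift N (s j) (hs j hj)
      rw [sum_const, nsmul_eq_mul, Nat.card_Icc] at h4
      simp only [Fintype.card_piFinset, Nat.card_Icc, add_tsub_cancel_right, prod_const, card_univ, Fintype.card_fin] at h4
      have h6 : (N : ℝ) * ∑ a ∈ Fintype.piFinset (fun _ : Fin k => Icc 1 N), (if PP (a i + s j) then (1 : ℝ) else 0) ≤
          (N : ℝ) ^ k * ((Nat.sqrt N : ℝ) * (Nat.log 2 N + 1)) := by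
        rw [← h4]
        push_cast
        exact mul_le_mul_of_nonneg_left h5 (by positivity)
      rw [div_mul_eq_mul_div, le_div_iff₀ hN0, mul_comm]
      exact h6
    refine (sum_le_sum fun i _ => h3 i).trans ?_
    rw [sum_const, nsmul_eq_mul, card_univ, Fintype.card_fin]
  refine (sum_le_sum h2).trans ?_
  rw [sum_const, nsmul_eq_mul, Nat.card_Icc]
  simp

/-- all prefixes from a grid of prefixes -/
lemma grid (x g R : ℕ) (hg : 1 ≤ g) (hR : x ≤ R * g) (D : ℕ → ℝ) (W0 T : ℝ) (hW : 0 ≤ W0) (hD : ∀ m ∈ Icc 1 x, |D m| ≤ W0)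
    (hT : ∀ t ∈ range (R + 1), |∑ m ∈ Icc 1 x, (if m ≤ t * g then (1 : ℝ) else 0) * D m| ≤ T) :
    ∀ J ≤ x, |∑ m ∈ Icc 1 J, D m| ≤ T + g * W0 := by
  intro J hJ
  set t := J / g with ht
  have h1 : t * g ≤ J := Nat.div_mul_le_self J g
  have h2 : J < t * g + g := by
    have := Nat.lt_div_mul_add (a := J) (b := g) (by omega)
    exact this
  have htR : t ∈ range (R + 1) := by
    rw [mem_range]
    apply Nat.lt_succ_of_le
    calc t ≤ (R * g) / g := Nat.div_le_div_right (hJ.trans hR)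
      _ = R := Nat.mul_div_cancel _ (by omega)
  have h3 := hT t htR
  have e1 : ∑ m ∈ Icc 1 x, (if m ≤ t * g then (1 : ℝ) else 0) * D m = ∑ m ∈ Icc 1 (t * g), D m := by
    have e2 : Icc 1 (t * g) = (Icc 1 x).filter (fun m => m ≤ t * g) := by
      ext m
      rw [mem_filter, mem_Icc, mem_Icc]
      omega
    rw [e2, sum_filter]
    apply sum_congr rfl
    intro m _
    split_ifs <;> simp
  rw [e1] at h3
  have e3 : ∑ m ∈ Icc 1 J, D m = ∑ m ∈ Icc 1 (t * g), D m + ∑ m ∈ Ioc (t * g) J, D m := by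
    have e4 : Icc 1 J = Icc 1 (t * g) ∪ Ioc (t * g) J := by
      ext m
      rw [mem_union, mem_Icc, mem_Icc, mem_Ioc]
      omega
    rw [e4, sum_union]
    rw [disjoint_left]
    intro m hm hm'
    rw [mem_Icc] at hm
    rw [mem_Ioc] at hm'
    omega
  rw [e3]
  refine (abs_add_le _ _).trans ?_
  have h4 : |∑ m ∈ Ioc (t * g) J, D m| ≤ g * W0 := by
    refine (abs_sum_le_sum_abs _ _).trans ?_
    refine (sum_le_sum fun m hm => hD m ?_).trans ?_
    · rw [mem_Ioc] at hm
      rw [mem_Icc]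
      omega
    · rw [sum_const, nsmul_eq_mul, Nat.card_Ioc]
      apply mul_le_mul_of_nonneg_right _ hW
      have : J - t * g ≤ g := by omega
      exact_mod_cast this
  linarith

open Classical in
lemma markov' {ι : Type*} (S : Finset ι) (F : ι → ℝ) (hF : ∀ a ∈ S, 0 ≤ F a) (T Q : ℝ) (hT : 0 < T) (h : ∑ a ∈ S, F a ≤ Q) :
    ((S.filter (fun a => T < F a)).card : ℝ) ≤ Q / T := by
  rw [le_div_iff₀ hT]
  have h1 : ((S.filter (fun a => T < F a)).card : ℝ) * T ≤ ∑ a ∈ S.filter (fun a => T < F a), F a := by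
    rw [← nsmul_eq_mul, ← sum_const]
    apply sum_le_sum
    intro a ha
    exact (mem_filter.1 ha).2.le
  refine h1.trans (le_trans ?_ h)
  exact sum_le_sum_of_subset_of_nonneg (filter_subset _ _) (fun a ha _ => hF a ha)

lemma energy_diag (p x : ℕ) (s : ℕ → ℤ) : x ^ p ≤ energy p x s := by
  unfold energy
  have h1 : (Fintype.piFinset fun _ : Fin p => Icc 1 x).card = x ^ p := by
    rw [Fintype.card_piFinset, prod_const, card_univ, Fintype.card_fin, Nat.card_Icc]
    simp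
  rw [← h1]
  apply card_le_card_of_injOn (fun v => (v, v))
  · intro v hv
    rw [mem_coe] at hv
    rw [mem_coe, mem_filter, mem_product]
    exact ⟨⟨hv, hv⟩, rfl⟩
  · intro v _ v' _ h
    exact (Prod.ext_iff.1 h).1

end Pool.Agent.K9h54.SQ
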