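import Mathlib
import Pool.Agent.K9h54.SQ.B4

set_option autoImplicit false

/-! Almost all tuples: the main estimate for a family of shifts. -/

namespace Pool.Agent.K9h54.SQ

open Finset Pool.Agent.H373R2.T7

lemma logpow_le (N : ℕ) (hN : 1 ≤ N) : (Nat.log 2 N : ℝ) ≤ 2 * Real.log N := by
  have h1 : 2 ^ Nat.log 2 N ≤ N := Nat.pow_log_le_self 2 (by omega)
  have h2 : ((2 : ℝ) ^ Nat.log 2 N) ≤ N := by exact_mod_cast h1
  have h3 := Real.log_le_log (by positivity) h2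
  rw [Real.log_pow] at h3
  have h4 := Real.log_two_gt_d9
  have h5 : (0 : ℝ) ≤ Nat.log 2 N := Nat.cast_nonneg _
  nlinarith

open Classical in
set_option maxHeartbeats 1000000 in
theorem core (k p C A : ℕ) :
    ∃ B0 : ℕ, ∀ E : ℕ, ∃ N0 : ℕ, ∀ N : ℕ, N0 ≤ N → ∀ (x : ℕ) (s : ℕ → ℤ),
    (∀ m ∈ Icc 1 x, |s m| ≤ N) → (∀ m ∈ Icc 1 x, s m ≤ 0) →
    (∀ j j', 1 ≤ j → j ≤ j' → j' ≤ x → s j' ≤ s j) →
    (energy p x s : ℝ) * N ≤ Real.log N ^ C * (x : ℝ) ^ (2 * p) →
    ∀ z : ℕ, Real.log N ^ B0 ≤ z → (z : ℝ) ≤ Real.log N ^ E →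
    (((Fintype.piFinset (fun _ : Fin k => Icc 1 N)).filter (fun a => ¬ ∀ J ≤ x,
      (∀ j ∈ Icc 1 J, ∀ i, 2 ≤ (a i : ℤ) + s j) →
      |(((Icc 1 J).filter (fun j => ∀ i, ((a i : ℤ) + s j).toNat.Prime)).card : ℝ) -
        ∑ j ∈ Icc 1 J, wt (fun i => (a i : ℤ) + s j) * ∏ i, lamzI z ((a i : ℤ) + s j)| ≤
        x / Real.log N ^ A)).card : ℝ) ≤ (N : ℝ) ^ k / Real.log N ^ A := by
  set G : ℕ := A + 1 + k with hG
  set U : ℕ := G + (A + 1) + (A + 1) with hU
  obtain ⟨B0, h0⟩ := tup k p 0 C U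
  refine ⟨B0, fun E => ?_⟩
  obtain ⟨m0, h1⟩ := h0 E
  obtain ⟨m2, h2⟩ := Vz_inv_small E
  obtain ⟨m3, h3⟩ := ev_L' (2 ^ (k + 1) + 2 ^ (k + 1) * (4 * 2 ^ k) + 8 + Real.log 2 + 1)
  obtain ⟨m4, h4⟩ := Pool.Agent.H373R2.T7.ev_log' (A + 1 + A + 1) (10 * k)
  obtain ⟨m5, h5⟩ := Pool.Agent.H373R2.T7.ev_log' (C + G * p) 2
  refine ⟨max (max m0 m2) (max (max m3 m4) (max m5 4)), fun N hN x s hs hs0 hanti hE z hz1 hz2 => ?_⟩
  have hm0 : m0 ≤ N := le_trans (le_trans (le_max_left _ _) (le_max_left _ _)) hN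
  have hm2 : m2 ≤ N := le_trans (le_trans (le_max_right _ _) (le_max_left _ _)) hN
  have hm3 : m3 ≤ N := le_trans (le_trans (le_trans (le_max_left _ _) (le_max_left _ _)) (le_max_right _ _)) hN
  have hm4 : m4 ≤ N := le_trans (le_trans (le_trans (le_max_right _ _) (le_max_left _ _)) (le_max_right _ _)) hN
  have hm5 : m5 ≤ N := le_trans (le_trans (le_trans (le_max_left _ _) (le_max_right _ _)) (le_max_right _ _)) hN
  have hN4 : 4 ≤ N := le_trans (le_trans (le_trans (le_max_right _ _) (le_max_right _ _)) (le_max_right _ _)) hN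
  have hL := h3 N hm3
  have hL4 := h4 N hm4
  have hL5 := h5 N hm5
  have hNr : (4 : ℝ) ≤ N := by exact_mod_cast hN4
  have hN0 : (0 : ℝ) < N := by linarith
  set L := Real.log N with hLd
  have hlog2 : 0 ≤ Real.log 2 := Real.log_nonneg (by norm_num)
  have h2k : (0 : ℝ) < 2 ^ (k + 1) := by positivity
  have h2k' : (0 : ℝ) < 2 ^ (k + 1) * (4 * 2 ^ k) := by positivity
  have hLge1 : 1 ≤ L := by linarith
  have hL0 : 0 < L := by linarith
  have hz : 1 ≤ z := by
    have : (1 : ℝ) ≤ z := (one_le_pow₀ hLge1).trans hz1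
    exact_mod_cast this
  have hVinv := h2 N hm2 z hz hz2
  rcases Nat.eq_zero_or_pos x with hx | hx
  · rw [filter_false_of_mem]
    · simp only [card_empty, Nat.cast_zero]
      positivity
    · intro a _ hcon
      apply hcon
      intro J hJ _
      have hJ0 : J = 0 := by omega
      rw [hJ0, hx]
      simp
  have hx0 : (0 : ℝ) < x := by exact_mod_cast hx
  -- x is large
  have hNs : 1 ≤ √(N : ℝ) := Real.one_le_sqrt.2 (by linarith)
  have hxL : L ^ G ≤ x := by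
    by_contra hcon
    push Not at hcon
    have h6 : ((x : ℝ) ^ p) * N ≤ L ^ C * (x : ℝ) ^ (2 * p) := by
      refine le_trans ?_ hE
      apply mul_le_mul_of_nonneg_right _ hN0.le
      exact_mod_cast energy_diag p x s
    have h7 : (N : ℝ) ≤ L ^ C * (x : ℝ) ^ p := by
      have h8 : (x : ℝ) ^ (2 * p) = (x : ℝ) ^ p * (x : ℝ) ^ p := by rw [two_mul, pow_add]
      rw [h8, ← mul_assoc, mul_comm] at h6
      exact le_of_mul_le_mul_right (by linarith) (pow_pos hx0 p)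
    have h8 : (x : ℝ) ^ p ≤ (L ^ G) ^ p := pow_le_pow_left₀ hx0.le hcon.le _
    have h9 : L ^ C * (x : ℝ) ^ p ≤ L ^ (C + G * p) := by
      rw [pow_add, pow_mul]
      exact mul_le_mul_of_nonneg_left h8 (by positivity)
    have h10 : √(N : ℝ) * √(N : ℝ) = N := Real.mul_self_sqrt hN0.le
    nlinarith
  have hLG0 : 0 < L ^ G := by positivity
  have hLG1 : 1 ≤ L ^ G := one_le_pow₀ hLge1
  set R : ℕ := ⌈L ^ G⌉₊ with hR
  set g : ℕ := x / R + 1 with hg
  have hR1 : L ^ G ≤ R := Nat.le_ceil _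
  have hR2 : (R : ℝ) < L ^ G + 1 := Nat.ceil_lt_add_one hLG0.le
  have hR0 : 0 < R := Nat.ceil_pos.2 hLG0
  have hR0r : (0 : ℝ) < R := by exact_mod_cast hR0
  have hRg : x ≤ R * g := (Nat.lt_mul_div_succ x hR0).le
  have hgr : (g : ℝ) ≤ 2 * x / L ^ G := by
    have h6 : ((x / R : ℕ) : ℝ) ≤ (x : ℝ) / R := Nat.cast_div_le
    have h7 : (x : ℝ) / R ≤ x / L ^ G := div_le_div_of_nonneg_left hx0.le hLG0 hR1
    have h8 : 1 ≤ (x : ℝ) / L ^ G := by rw [le_div_iff₀ hLG0]; linarith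
    have h9 : (g : ℝ) = ((x / R : ℕ) : ℝ) + 1 := by rw [hg]; push_cast; ring
    rw [h9, mul_div_assoc]
    linarith
  set W0 : ℝ := (2 * L) ^ k with hW0
  have hW00 : 0 ≤ W0 := by positivity
  set D : (Fin k → ℕ) → ℕ → ℝ := fun a m => ∏ i, lamI (a i + s m) - ∏ i, lamzI z (a i + s m) with hD
  have hDb : ∀ a ∈ Fintype.piFinset (fun _ : Fin k => Icc 1 N), ∀ m ∈ Icc 1 x, |D a m| ≤ W0 := by
    intro a ha m hm
    have h6 : ∏ i, lamI (a i + s m) ≤ W0 := by
      rw [hW0]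
      have e : (2 * L) ^ k = ∏ _i : Fin k, (2 * L) := by rw [prod_const, card_univ, Fintype.card_fin]
      rw [e]
      apply prod_le_prod (fun i _ => lamI_nonneg _)
      intro i _
      apply lamI_le 0 N (by omega)
      · simp only [Nat.cast_zero, zero_add, mul_one]
        linarith
      · have h7 := Fintype.mem_piFinset.1 ha i
        rw [mem_Icc] at h7
        have h8 : (a i : ℤ) ≤ N := by exact_mod_cast h7.2
        have h9 := hs0 m hm
        simp only [Nat.cast_zero, zero_add, one_mul]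
        linarith
    have h7 : ∏ i, lamzI z (a i + s m) ≤ W0 := by
      rw [hW0]
      have e : (2 * L) ^ k = ∏ _i : Fin k, (2 * L) := by rw [prod_const, card_univ, Fintype.card_fin]
      rw [e]
      apply prod_le_prod (fun i _ => lamzI_nonneg z _)
      intro i _
      unfold lamzI lamz
      split_ifs
      · linarith
      · positivity
      · positivity
    have h8 : 0 ≤ ∏ i, lamI (a i + s m) := prod_nonneg fun i _ => lamI_nonneg _
    have h9 : 0 ≤ ∏ i, lamzI z (a i + s m) := prod_nonneg fun i _ => lamzI_nonneg z _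
    rw [hD, abs_le]
    constructor <;> simp only <;> linarith
  set T : ℝ := x / L ^ (A + 1) with hT
  have hT0 : 0 < T := by positivity
  -- the first exceptional set
  set S : Finset (Fin k → ℕ) := Fintype.piFinset (fun _ : Fin k => Icc 1 N) with hS
  set F : ℕ → (Fin k → ℕ) → ℝ := fun t a => |∑ m ∈ Icc 1 x, (if m ≤ t * g then (1 : ℝ) else 0) * D a m| with hF
  set Bad1 : Finset (Fin k → ℕ) := (range (R + 1)).biUnion (fun t => S.filter (fun a => T < F t a)) with hBad1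
  have hb1 : (Bad1.card : ℝ) ≤ (1 / 2) * ((N : ℝ) ^ k / L ^ A) := by
    have h6 : ∀ t ∈ range (R + 1), (((S.filter (fun a => T < F t a)).card : ℝ)) ≤ ((N : ℝ) ^ k * x / L ^ U) / T := by
      intro t _
      apply markov' S (F t) (fun a _ => abs_nonneg _) T _ hT0
      apply h1 N hm0 x s (fun m hm => by simpa using hs m hm) hE z hz1 hz2
      intro m _
      split_ifs <;> simp
    have h7 : (Bad1.card : ℝ) ≤ ∑ t ∈ range (R + 1), ((S.filter (fun a => T < F t a)).card : ℝ) := by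
      exact_mod_cast card_biUnion_le
    refine h7.trans ((sum_le_sum h6).trans ?_)
    rw [sum_const, card_range, nsmul_eq_mul]
    have h8 : ((R + 1 : ℕ) : ℝ) ≤ 3 * L ^ G := by push_cast; linarith
    have h9 : (N : ℝ) ^ k * x / L ^ U / T = (N : ℝ) ^ k / (L ^ G * L ^ (A + 1)) := by
      rw [hT, hU, pow_add, pow_add L G]
      field_simp
    rw [h9]
    calc ((R + 1 : ℕ) : ℝ) * ((N : ℝ) ^ k / (L ^ G * L ^ (A + 1))) ≤ 3 * L ^ G * ((N : ℝ) ^ k / (L ^ G * L ^ (A + 1))) :=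
          mul_le_mul_of_nonneg_right h8 (by positivity)
      _ = (3 / L) * ((N : ℝ) ^ k / L ^ A) := by
          rw [pow_succ L A]
          field_simp
      _ ≤ (1 / 2) * ((N : ℝ) ^ k / L ^ A) := by
          apply mul_le_mul_of_nonneg_right _ (by positivity)
          rw [div_le_div_iff₀ hL0 (by norm_num)]
          linarith
  -- the second exceptional set
  set F2 : (Fin k → ℕ) → ℝ := fun a => (((Icc 1 x).filter (fun j => ∃ i, PP (a i + s j))).card : ℝ) with hF2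
  set Bad2 : Finset (Fin k → ℕ) := S.filter (fun a => T < F2 a) with hBad2
  have hb2 : (Bad2.card : ℝ) ≤ (1 / 2) * ((N : ℝ) ^ k / L ^ A) := by
    have h6 := markov' S F2 (fun a _ => Nat.cast_nonneg _) T _ hT0 (pp_avg k N x (by omega) s hs0)
    refine h6.trans ?_
    have h7 : (Nat.sqrt N : ℝ) ≤ √(N : ℝ) := Real.nat_sqrt_le_real_sqrt
    have h8 : (Nat.log 2 N : ℝ) + 1 ≤ 3 * L := by
      have := logpow_le N (by omega)
      linarith
    have h9 : √(N : ℝ) * √(N : ℝ) = N := Real.mul_self_sqrt hN0.le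
    have hs0' : 0 < √(N : ℝ) := by linarith
    have h10 : (Nat.sqrt N : ℝ) * (Nat.log 2 N + 1) ≤ √(N : ℝ) * (3 * L) :=
      mul_le_mul h7 h8 (by positivity) (by positivity)
    have h11 : (x : ℝ) * (k * ((N : ℝ) ^ k / N * ((Nat.sqrt N : ℝ) * (Nat.log 2 N + 1)))) ≤
        x * (k * ((N : ℝ) ^ k / N * (√(N : ℝ) * (3 * L)))) := by gcongr
    refine (div_le_div_of_nonneg_right h11 hT0.le).trans ?_
    have h12 : (x : ℝ) * (k * ((N : ℝ) ^ k / N * (√(N : ℝ) * (3 * L)))) / T =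
        (3 * k * L ^ (A + 1 + A + 1) / √(N : ℝ)) * ((N : ℝ) ^ k / L ^ A) := by
      rw [hT, show A + 1 + A + 1 = A + 1 + (A + 1) by ring, pow_add, pow_succ]
      have : (N : ℝ) = √(N : ℝ) * √(N : ℝ) := h9.symm
      nth_rw 2 [this]
      field_simp
      ring
    rw [h12]
    apply mul_le_mul_of_nonneg_right _ (by positivity)
    rw [div_le_iff₀ hs0']
    have hk0 : (0 : ℝ) ≤ k := Nat.cast_nonneg _
    have h13 : 0 ≤ (k : ℝ) * L ^ (A + 1 + A + 1) := by positivity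
    linarith
  -- assembly
  have hsub : S.filter (fun a => ¬ ∀ J ≤ x,
      (∀ j ∈ Icc 1 J, ∀ i, 2 ≤ (a i : ℤ) + s j) →
      |(((Icc 1 J).filter (fun j => ∀ i, ((a i : ℤ) + s j).toNat.Prime)).card : ℝ) -
        ∑ j ∈ Icc 1 J, wt (fun i => (a i : ℤ) + s j) * ∏ i, lamzI z ((a i : ℤ) + s j)| ≤
        x / L ^ A) ⊆ Bad1 ∪ Bad2 := by
    intro a ha
    rw [mem_filter] at ha
    by_contra hcon
    rw [mem_union, not_or] at hcon
    apply ha.2
    intro J hJ hJ2
    have h6 : ∀ t ∈ range (R + 1), F t a ≤ T := by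
      intro t ht
      by_contra h7
      apply hcon.1
      rw [hBad1, mem_biUnion]
      exact ⟨t, ht, mem_filter.2 ⟨ha.1, not_le.1 h7⟩⟩
    have h7 : F2 a ≤ T := by
      by_contra h8
      exact hcon.2 (mem_filter.2 ⟨ha.1, not_le.1 h8⟩)
    have h8 := grid x g R (Nat.le_add_left 1 _) hRg (D a) W0 T hW00 (hDb a ha.1) h6
    have h9 := one_tuple z J x hJ (fun j i => (a i : ℤ) + s j) hJ2
      (fun j j' hj hjj' hj' i => by
        have := hanti j j' hj hjj' hj'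
        linarith) (T + g * W0) h8
    refine h9.trans ?_
    have h10 : (g : ℝ) * W0 ≤ 2 * 2 ^ k * T := by
      calc (g : ℝ) * W0 ≤ (2 * x / L ^ G) * W0 := mul_le_mul_of_nonneg_right hgr hW00
        _ = 2 * 2 ^ k * T := by
            rw [hT, hW0, hG, mul_pow, pow_add L (A + 1) k]
            field_simp
    have h11 : 2 * 2 ^ k * (T + g * W0) + F2 a ≤ (2 ^ (k + 1) + 2 ^ (k + 1) * (4 * 2 ^ k) + 1) * T := by
      have h12 : 2 * 2 ^ k * (T + g * W0) ≤ 2 * 2 ^ k * (T + 2 * 2 ^ k * T) := by gcongr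
      have h13 : (0 : ℝ) ≤ 2 ^ k * 2 ^ k * T := by positivity
      have e : (2 : ℝ) ^ (k + 1) = 2 * 2 ^ k := by rw [pow_succ]; ring
      rw [e]
      nlinarith
    refine h11.trans ?_
    calc (2 ^ (k + 1) + 2 ^ (k + 1) * (4 * 2 ^ k) + 1) * T ≤ L * T := by
          apply mul_le_mul_of_nonneg_right _ hT0.le
          linarith
      _ = x / L ^ A := by
          rw [hT, pow_succ]
          field_simp
  have hcard : ((S.filter (fun a => ¬ ∀ J ≤ x,
      (∀ j ∈ Icc 1 J, ∀ i, 2 ≤ (a i : ℤ) + s j) →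
      |(((Icc 1 J).filter (fun j => ∀ i, ((a i : ℤ) + s j).toNat.Prime)).card : ℝ) -
        ∑ j ∈ Icc 1 J, wt (fun i => (a i : ℤ) + s j) * ∏ i, lamzI z ((a i : ℤ) + s j)| ≤
        x / L ^ A)).card : ℝ) ≤ (Bad1.card : ℝ) + Bad2.card := by
    exact_mod_cast (card_le_card hsub).trans (card_union_le _ _)
  linarith

end Pool.Agent.K9h54.SQ
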