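import Mathlib
import Pool.Agent.K9h54.SQ.B5

set_option autoImplicit false

/-! Sets of integers instead of families of shifts. -/

namespace Pool.Agent.K9h54.SQ

open Finset Pool.Agent.H373R2.T7

/-- increasing enumeration of a finite set -/
lemma enum (M : Finset ℕ) : ∃ e : ℕ → ℕ, (∀ i j, 1 ≤ i → i ≤ j → j ≤ #M → e i ≤ e j) ∧
    (∀ i ∈ Icc 1 #M, ∀ j ∈ Icc 1 #M, e i = e j → i = j) ∧ image e (Icc 1 #M) = M := by
  classical
  set e : ℕ → ℕ := fun j => if h : j - 1 < #M then M.orderEmbOfFin rfl ⟨j - 1, h⟩ else 0 with he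
  have h1 : ∀ j (hj : j - 1 < #M), e j = M.orderEmbOfFin rfl ⟨j - 1, hj⟩ := by
    intro j hj
    rw [he]
    simp only [dif_pos hj]
  refine ⟨e, ?_, ?_, ?_⟩
  · intro i j hi hij hj
    rw [h1 i (by omega), h1 j (by omega)]
    apply (M.orderEmbOfFin rfl).monotone
    show i - 1 ≤ j - 1
    omega
  · intro i hi j hj hij
    rw [mem_Icc] at hi hj
    rw [h1 i (by omega), h1 j (by omega)] at hij
    have := (M.orderEmbOfFin rfl).injective hij
    rw [Fin.mk.injEq] at this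
    omega
  · ext m
    rw [mem_image]
    constructor
    · rintro ⟨j, hj, rfl⟩
      rw [mem_Icc] at hj
      rw [h1 j (by omega)]
      exact orderEmbOfFin_mem M rfl _
    · intro hm
      have h2 : m ∈ Set.range (M.orderEmbOfFin rfl) := by
        rw [range_orderEmbOfFin]
        exact hm
      obtain ⟨i, hi⟩ := h2
      refine ⟨i.1 + 1, ?_, ?_⟩
      · rw [mem_Icc]
        have := i.2
        omega
      · rw [h1 (i.1 + 1) (by have := i.2; omega)]
        rw [← hi]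
        congr 1

/-- The number of the solutions of `m₁² + ⋯ + m_h² = m_{h+1}² + ⋯ + m_{2h}²` in elements of `M`. -/
def energySq (h : ℕ) (M : Finset ℕ) : ℕ :=
  #(((Fintype.piFinset fun _ : Fin h => M) ×ˢ (Fintype.piFinset fun _ : Fin h => M)).filter
    (fun v => ∑ i, v.1 i ^ 2 = ∑ i, v.2 i ^ 2))

lemma energy_enum (h : ℕ) (M : Finset ℕ) (e : ℕ → ℕ) (he : ∀ i ∈ Icc 1 #M, ∀ j ∈ Icc 1 #M, e i = e j → i = j)
    (him : image e (Icc 1 #M) = M) :
    energy h #M (fun j => -((e j : ℤ) ^ 2)) ≤ energySq h M := by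
  classical
  unfold energy energySq
  apply card_le_card_of_injOn (fun v => (fun i => e (v.1 i), fun i => e (v.2 i)))
  · intro v hv
    rw [mem_coe, mem_filter, mem_product, Fintype.mem_piFinset, Fintype.mem_piFinset] at hv
    rw [mem_coe, mem_filter, mem_product, Fintype.mem_piFinset, Fintype.mem_piFinset]
    refine ⟨⟨fun i => ?_, fun i => ?_⟩, ?_⟩
    · rw [← him]
      exact mem_image_of_mem e (hv.1.1 i)
    · rw [← him]
      exact mem_image_of_mem e (hv.1.2 i)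
    · have h1 := hv.2
      rw [sum_neg_distrib, sum_neg_distrib, neg_inj] at h1
      simp only
      exact_mod_cast h1
  · intro v hv w hw hvw
    rw [mem_coe, mem_filter, mem_product, Fintype.mem_piFinset, Fintype.mem_piFinset] at hv hw
    simp only [Prod.mk.injEq] at hvw
    ext i
    · exact he _ (hv.1.1 i) _ (hw.1.1 i) (congrFun hvw.1 i)
    · exact he _ (hv.1.2 i) _ (hw.1.2 i) (congrFun hvw.2 i)

/-- The number of the `m ∈ M`, `m ≤ y`, such that all the numbers `n i - m²` are primes. -/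
def rep {k : ℕ} (M : Finset ℕ) (n : Fin k → ℕ) (y : ℕ) : ℕ :=
  #(M.filter (fun m => m ≤ y ∧ ∀ i, (n i - m ^ 2).Prime))

/-- `V(z) = ∏_{p ≤ z} (1 - 1 / p)` -/
noncomputable def V (z : ℕ) : ℝ := ∏ p ∈ (Icc 1 z).filter Nat.Prime, (1 - 1 / (p : ℝ))

/-- The elements `m ≤ y` of `M` such that all the numbers `n i - m²` are at least `2` and have no prime factor `≤ z`. -/
def rough {k : ℕ} (M : Finset ℕ) (n : Fin k → ℕ) (z y : ℕ) : Finset ℕ :=
  M.filter (fun m => m ≤ y ∧ ∀ i, m ^ 2 + 2 ≤ n i ∧ ∀ p ∈ (Icc 1 z).filter Nat.Prime, ¬ p ∣ n i - m ^ 2)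

/-- The expected number. -/
noncomputable def expected {k : ℕ} (M : Finset ℕ) (n : Fin k → ℕ) (z y : ℕ) : ℝ :=
  ∑ m ∈ rough M n z y, ∏ i, 1 / (V z * Real.log ((n i - m ^ 2 : ℕ) : ℝ))

lemma toNat_sub' (n m : ℕ) : ((n : ℤ) + -((m : ℤ) ^ 2)).toNat = n - m ^ 2 := by
  have : ((m : ℤ) ^ 2) = ((m ^ 2 : ℕ) : ℤ) := by push_cast; ring
  rw [this]
  omega

open Classical in
theorem sets (k h C A : ℕ) :
    ∃ B : ℕ, ∀ E : ℕ, ∃ N₀ : ℕ, ∀ N : ℕ, N₀ ≤ N → ∀ z : ℕ, Real.log N ^ B ≤ z → (z : ℝ) ≤ Real.log N ^ E →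
    ∀ M : Finset ℕ, (∀ m ∈ M, m ^ 2 ≤ N) → (energySq h M : ℝ) * N ≤ Real.log N ^ C * (#M : ℝ) ^ (2 * h) →
    (#((Fintype.piFinset (fun _ : Fin k => Icc 1 N)).filter (fun n => ¬ ∀ y : ℕ,
      |(rep M n y : ℝ) - expected M n z y| ≤ #M / Real.log N ^ A)) : ℝ) ≤ (N : ℝ) ^ k / Real.log N ^ A := by
  obtain ⟨B0, h0⟩ := core k h C A
  refine ⟨B0, fun E => ?_⟩
  obtain ⟨N0, h1⟩ := h0 E
  refine ⟨max N0 3, fun N hN z hz1 hz2 M hM hE => ?_⟩
  have hN0 : N0 ≤ N := le_trans (le_max_left _ _) hN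
  have hN3 : 3 ≤ N := le_trans (le_max_right _ _) hN
  obtain ⟨e, he1, he2, he3⟩ := enum M
  have heM : ∀ j ∈ Icc 1 #M, e j ∈ M := by
    intro j hj
    rw [← he3]
    exact mem_image_of_mem e hj
  have hlog : 0 ≤ Real.log (N : ℝ) := Real.log_nonneg (by exact_mod_cast (by omega : 1 ≤ N))
  have h2 := h1 N hN0 #M (fun j => -((e j : ℤ) ^ 2))
    (fun m hm => by
      rw [abs_neg, abs_of_nonneg (by positivity)]
      exact_mod_cast hM _ (heM m hm))
    (fun m _ => by
      have : (0 : ℤ) ≤ (e m : ℤ) ^ 2 := by positivity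
      linarith)
    (fun j j' hj hjj' hj' => by
      have h3 := he1 j j' hj hjj' hj'
      have h4 : ((e j : ℤ) ^ 2) ≤ (e j' : ℤ) ^ 2 := by
        have : (e j) ^ 2 ≤ (e j') ^ 2 := Nat.pow_le_pow_left h3 2
        exact_mod_cast this
      linarith)
    (by
      have h3 : (energy h #M (fun j => -((e j : ℤ) ^ 2)) : ℝ) ≤ energySq h M := by
        exact_mod_cast energy_enum h M e he2 he3
      exact (mul_le_mul_of_nonneg_right h3 (Nat.cast_nonneg _)).trans hE) z hz1 hz2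
  refine le_trans ?_ h2
  have hsub : (Fintype.piFinset (fun _ : Fin k => Icc 1 N)).filter (fun n => ¬ ∀ y : ℕ,
      |(rep M n y : ℝ) - expected M n z y| ≤ #M / Real.log N ^ A) ⊆
      (Fintype.piFinset (fun _ : Fin k => Icc 1 N)).filter (fun a => ¬ ∀ J ≤ #M,
      (∀ j ∈ Icc 1 J, ∀ i, 2 ≤ (a i : ℤ) + -((e j : ℤ) ^ 2)) →
      |(((Icc 1 J).filter (fun j => ∀ i, ((a i : ℤ) + -((e j : ℤ) ^ 2)).toNat.Prime)).card : ℝ) -
        ∑ j ∈ Icc 1 J, wt (fun i => (a i : ℤ) + -((e j : ℤ) ^ 2)) * ∏ i, lamzI z ((a i : ℤ) + -((e j : ℤ) ^ 2))| ≤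
        #M / Real.log N ^ A) := by
    intro n hn
    rw [mem_filter] at hn ⊢
    refine ⟨hn.1, fun hcon => hn.2 fun y => ?_⟩
    -- the prefix
    set P : ℕ → Prop := fun j => 1 ≤ j ∧ e j ≤ y ∧ ∀ i, (e j) ^ 2 + 2 ≤ n i with hP
    set J := Nat.findGreatest P #M with hJ
    have hJM : J ≤ #M := Nat.findGreatest_le _
    have hPJ : ∀ j ∈ Icc 1 #M, (j ≤ J ↔ (e j ≤ y ∧ ∀ i, (e j) ^ 2 + 2 ≤ n i)) := by
      intro j hj
      have hj' := mem_Icc.1 hj
      constructor
      · intro hjJ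
        have h3 : P J := Nat.findGreatest_of_ne_zero rfl (by omega)
        have h4 := he1 j J hj'.1 hjJ hJM
        refine ⟨h4.trans h3.2.1, fun i => ?_⟩
        have h5 := h3.2.2 i
        have h6 : (e j) ^ 2 ≤ (e J) ^ 2 := Nat.pow_le_pow_left h4 2
        omega
      · intro h3
        exact Nat.le_findGreatest hj'.2 ⟨hj'.1, h3⟩
    have hJc : ∀ j ∈ Icc 1 J, ∀ i, (e j) ^ 2 + 2 ≤ n i := by
      intro j hj
      rw [mem_Icc] at hj
      exact ((hPJ j (mem_Icc.2 ⟨hj.1, hj.2.trans hJM⟩)).1 hj.2).2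
    have h3 := hcon J hJM (fun j hj i => by
      have h4 := hJc j hj i
      have h5 : (((e j) ^ 2 + 2 : ℕ) : ℤ) ≤ n i := by exact_mod_cast h4
      push_cast at h5
      linarith)
    -- the number
    have e1 : rep M n y = ((Icc 1 J).filter (fun j => ∀ i, ((n i : ℤ) + -((e j : ℤ) ^ 2)).toNat.Prime)).card := by
      unfold rep
      have h4 : M.filter (fun m => m ≤ y ∧ ∀ i, (n i - m ^ 2).Prime) =
          ((Icc 1 J).filter (fun j => ∀ i, ((n i : ℤ) + -((e j : ℤ) ^ 2)).toNat.Prime)).image e := by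
        ext m
        rw [mem_filter, mem_image]
        constructor
        · rintro ⟨hm, hmy, hmp⟩
          rw [← he3, mem_image] at hm
          obtain ⟨j, hj, rfl⟩ := hm
          refine ⟨j, ?_, rfl⟩
          rw [mem_filter, mem_Icc]
          refine ⟨⟨(mem_Icc.1 hj).1, (hPJ j hj).2 ⟨hmy, fun i => ?_⟩⟩, fun i => ?_⟩
          · have := (hmp i).two_le
            omega
          · rw [toNat_sub']
            exact hmp i
        · rintro ⟨j, hj, rfl⟩
          rw [mem_filter, mem_Icc] at hj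
          have hj' : j ∈ Icc 1 #M := mem_Icc.2 ⟨hj.1.1, hj.1.2.trans hJM⟩
          refine ⟨heM j hj', ((hPJ j hj').1 hj.1.2).1, fun i => ?_⟩
          have := hj.2 i
          rw [toNat_sub'] at this
          exact this
      rw [h4, card_image_of_injOn]
      intro a ha b hb hab
      rw [mem_coe, mem_filter, mem_Icc] at ha hb
      exact he2 a (mem_Icc.2 ⟨ha.1.1, ha.1.2.trans hJM⟩) b (mem_Icc.2 ⟨hb.1.1, hb.1.2.trans hJM⟩) hab
    -- the expected number
    have e2 : expected M n z y =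
        ∑ j ∈ Icc 1 J, wt (fun i => (n i : ℤ) + -((e j : ℤ) ^ 2)) * ∏ i, lamzI z ((n i : ℤ) + -((e j : ℤ) ^ 2)) := by
      unfold expected
      have h4 : rough M n z y =
          ((Icc 1 J).filter (fun j => ∀ i, ∀ p ∈ (Icc 1 z).filter Nat.Prime, ¬ p ∣ n i - (e j) ^ 2)).image e := by
        ext m
        unfold rough
        rw [mem_filter, mem_image]
        constructor
        · rintro ⟨hm, hmy, hmp⟩
          rw [← he3, mem_image] at hm
          obtain ⟨j, hj, rfl⟩ := hm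
          refine ⟨j, ?_, rfl⟩
          rw [mem_filter, mem_Icc]
          exact ⟨⟨(mem_Icc.1 hj).1, (hPJ j hj).2 ⟨hmy, fun i => (hmp i).1⟩⟩, fun i => (hmp i).2⟩
        · rintro ⟨j, hj, rfl⟩
          rw [mem_filter, mem_Icc] at hj
          have hj' : j ∈ Icc 1 #M := mem_Icc.2 ⟨hj.1.1, hj.1.2.trans hJM⟩
          have h5 := (hPJ j hj').1 hj.1.2
          exact ⟨heM j hj', h5.1, fun i => ⟨h5.2 i, hj.2 i⟩⟩
      rw [h4, sum_image]
      · rw [sum_filter]
        apply sum_congr rfl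
        intro j hj
        have hjc := hJc j hj
        have h6 : ∀ i, lamzI z ((n i : ℤ) + -((e j : ℤ) ^ 2)) =
            if ∀ p ∈ (Icc 1 z).filter Nat.Prime, ¬ p ∣ n i - (e j) ^ 2 then (V z)⁻¹ else 0 := by
          intro i
          unfold lamzI
          rw [if_pos, toNat_sub']
          · rfl
          · have h7 : (((e j) ^ 2 + 2 : ℕ) : ℤ) ≤ n i := by exact_mod_cast hjc i
            push_cast at h7
            linarith
        have h7 : ∀ i, ((((n i : ℤ) + -((e j : ℤ) ^ 2) : ℤ)) : ℝ) = ((n i - (e j) ^ 2 : ℕ) : ℝ) := by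
          intro i
          rw [Nat.cast_sub (by have := hjc i; omega)]
          push_cast
          ring
        split_ifs with hc
        · unfold wt
          rw [← prod_mul_distrib]
          apply prod_congr rfl
          intro i _
          rw [h6 i, if_pos (hc i), h7 i, one_div, one_div, mul_inv, mul_comm]
        · push Not at hc
          obtain ⟨i, p, hp, hpd⟩ := hc
          have h8 : lamzI z ((n i : ℤ) + -((e j : ℤ) ^ 2)) = 0 := by
            rw [h6 i, if_neg]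
            push Not
            exact ⟨p, hp, hpd⟩
          rw [prod_eq_zero (mem_univ i) h8, mul_zero]
      · intro a ha b hb hab
        rw [mem_coe, mem_filter, mem_Icc] at ha hb
        exact he2 a (mem_Icc.2 ⟨ha.1.1, ha.1.2.trans hJM⟩) b (mem_Icc.2 ⟨hb.1.1, hb.1.2.trans hJM⟩) hab
    rw [e1, e2]
    exact h3
  exact_mod_cast card_le_card hsub

end Pool.Agent.K9h54.SQ
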